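import Pool.Agent.R321.RC7

/-!
# Common zeros of two Dirichlet L-functions, on average over all pairs

The linear independence of the ordinates of the critical zeros of all the Artin L-functions of a
Galois extension of `ℚ` implies that these zeros are simple and that no two of the L-functions have a
common zero.  We consider the pairs `(χ, ψ)` of primitive Dirichlet characters of conductors
`X < q, r ≤ Y`, weight `(q r)⁻²`, where `K X ≤ Y ≤ X ^ (1 + η)` (these are characters of the
cyclotomic field of the `lcm(q, r)`-th roots of unity).  On average over these pairs, unconditionally: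
at least 42.3 per cent of all the zeros of `L(s, χ)` with `T < Im s ≤ 2 T` are simple, lie on the
critical line and are not zeros of `L(s, ψ)`; the two L-functions have at least `1.423 N` distinct
zeros, where `N` is the number of the zeros of one of them with multiplicity; and at most 57.7 per
cent of the zeros are common to both, even if a common zero is counted with the smaller of the two
multiplicities. Here `(log X)² ≤ T ≤ X ^ η`.

Proof. The trace inequality for zeros (no hypothesis on zeros off the line) is applied to the product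
`L(s, χ) L(s, ψ)`, an L-function of degree two.  Its prime side is the sum of the two prime sides of
degree one, whose mean square over the family is known up to the length `X ^ (2 - ε)` (starting
files), and of the mixed term, which on average over the pairs is the mean square of the average of the
prime sums over the family; by Möbius inversion the average of `χ(n)` over the family is at most
`2 τ(n - 1) / X`, so that the mixed term is negligible up to the length `X ^ (2 - ε)`, too.
-/

open Complex

namespace Pool.Agent.Results.MP_0f5a55_nt.CommonZerosOfPairs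

/-- The Dirichlet L-function of a character modulo `q` (the value for `q = 0` is never used). -/
noncomputable def Lfun (q : ℕ) (χ : DirichletCharacter ℂ q) : ℂ → ℂ :=
  if h : q = 0 then 0 else
    haveI : NeZero q := ⟨h⟩
    DirichletCharacter.LFunction χ

/-- The zeros of `F` in the open critical strip with ordinate in `(T, 2T]`. -/
def zeros (F : ℂ → ℂ) (T : ℝ) : Set ℂ :=
  {s : ℂ | 0 < s.re ∧ s.re < 1 ∧ T < s.im ∧ s.im ≤ 2 * T ∧ F s = 0}

/-- The number of these zeros, counted with multiplicity. -/
noncomputable def N (F : ℂ → ℂ) (T : ℝ) : ℕ := ∑ᶠ s ∈ zeros F T, analyticOrderNatAt F s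

/-- The zeros of `F` on the critical line which are simple and are not zeros of `G`. -/
def only (F G : ℂ → ℂ) (T : ℝ) : Set ℂ :=
  {s : ℂ | s ∈ zeros F T ∧ s.re = 1 / 2 ∧ analyticOrderNatAt F s = 1 ∧ G s ≠ 0}

/-- The number of the common zeros of `F` and `G`, each counted with the smaller of the two
multiplicities. -/
noncomputable def common (F G : ℂ → ℂ) (T : ℝ) : ℕ :=
  ∑ᶠ s ∈ zeros F T ∩ zeros G T, min (analyticOrderNatAt F s) (analyticOrderNatAt G s)

/-- The primitive Dirichlet characters of conductor `q`. -/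
def prim (q : ℕ) : Set (DirichletCharacter ℂ q) := {χ | χ.IsPrimitive}

/-- The sum of `f q χ r ψ / (q r)²` over all pairs of primitive Dirichlet characters `χ` of
conductor `q` and `ψ` of conductor `r`, `X < q, r ≤ Y`. -/
noncomputable def avg (X Y : ℕ)
    (f : (q : ℕ) → DirichletCharacter ℂ q → (r : ℕ) → DirichletCharacter ℂ r → ℕ) : ℝ :=
  ∑ q ∈ Finset.Ioc X Y, ∑ᶠ χ ∈ prim q, ∑ r ∈ Finset.Ioc X Y, ∑ᶠ ψ ∈ prim r,
    (f q χ r ψ : ℝ) / ((q : ℝ) ^ 2 * (r : ℝ) ^ 2)

open Pool.Agent.R321.RC in
lemma finsum_prim {q : ℕ} (hq : q ≠ 0) (g : DirichletCharacter ℂ q → ℝ) :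
    ∑ᶠ χ ∈ prim q, g χ = ∑ χ ∈ PF q, g χ := by
  have h : prim q = ((PF q : Finset _) : Set (DirichletCharacter ℂ q)) := by
    ext χ
    rw [Finset.mem_coe, mem_PF hq]
    rfl
  rw [h, finsum_mem_coe_finset]

open Pool.Agent.R321.RC in
lemma avg_eq (X Y : ℕ)
    (f : (q : ℕ) → DirichletCharacter ℂ q → (r : ℕ) → DirichletCharacter ℂ r → ℕ) :
    avg X Y f = avg2 X Y (fun z => (f z.1.1 z.1.2 z.2.1 z.2.2 : ℝ)) := by
  unfold avg avg2 PS
  rw [Finset.sum_product, primSet_eq, Finset.sum_sigma]
  refine Finset.sum_congr rfl fun q hq => ?_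
  have hq0 : q ≠ 0 := by
    rw [Finset.mem_Ioc] at hq
    omega
  rw [finsum_prim hq0]
  refine Finset.sum_congr rfl fun χ _ => ?_
  rw [Finset.sum_sigma]
  refine Finset.sum_congr rfl fun r hr => ?_
  have hr0 : r ≠ 0 := by
    rw [Finset.mem_Ioc] at hr
    omega
  rw [finsum_prim hr0]
  refine Finset.sum_congr rfl fun ψ _ => ?_
  unfold w2
  simp only
  rw [div_eq_mul_inv, mul_inv, one_div, one_div]
  ring

/-- Common zeros of two Dirichlet L-functions on average over all pairs of primitive characters. -/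
theorem result : ∃ K η X₀ : ℝ, 1 ≤ K ∧ 0 < η ∧ 1 ≤ X₀ ∧
    ∀ (X Y : ℕ) (T : ℝ), X₀ ≤ X → K * X ≤ Y → (Y : ℝ) ≤ (X : ℝ) ^ (1 + η) →
      (Real.log X) ^ 2 ≤ T → T ≤ (X : ℝ) ^ η →
      0 < avg X Y (fun q χ _ _ => N (Lfun q χ) T) ∧
      (∀ q : ℕ, X < q → ∀ χ ∈ prim q, (zeros (Lfun q χ) T).Finite) ∧
      0.423 * avg X Y (fun q χ _ _ => N (Lfun q χ) T) ≤
        avg X Y (fun q χ r ψ => (only (Lfun q χ) (Lfun r ψ) T).ncard) ∧
      1.423 * avg X Y (fun q χ _ _ => N (Lfun q χ) T) ≤
        avg X Y (fun q χ r ψ => (zeros (Lfun q χ) T ∪ zeros (Lfun r ψ) T).ncard) ∧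
      avg X Y (fun q χ r ψ => common (Lfun q χ) (Lfun r ψ) T) ≤
        0.577 * avg X Y (fun q χ _ _ => N (Lfun q χ) T) := by
  obtain ⟨K, η, X0, hK, hη, hX0, h⟩ := Pool.Agent.R321.RC.pairs_common
  refine ⟨K, η, X0, hK, hη, hX0, ?_⟩
  intro X Y T hX hKX hY hT1 hT2
  obtain ⟨b0, bf, b1, b2, b3⟩ := h X Y T hX hKX hY hT1 hT2
  rw [avg_eq, avg_eq, avg_eq, avg_eq]
  exact ⟨b0, fun q hq χ hχ => bf q hq χ hχ, b1, b2, b3⟩

end Pool.Agent.Results.MP_0f5a55_nt.CommonZerosOfPairs
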