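import Pool.Agent.R321.RG4

/-!
# Common zeros of `L(s, χ)` and `L(s, χ χ₄)`, on average over `χ`

For an odd modulus `q` and a primitive character `χ` modulo `q` let `χ χ₄` be the product with the
odd character modulo 4; it is a primitive character modulo `4 q`.  Both are characters of the Galois
group of the field of the `4 q`-th roots of unity, and linear independence of the zeros for this field
implies that the two L-functions have no common zeros.  Unconditionally, on average over the odd
`X < q ≤ Y` (`K X ≤ Y ≤ X ^ (1 + η)`, weight `q⁻²`) and the primitive `χ` modulo `q`, and for the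
zeros with `T < Im s ≤ 2 T`, `(log X)² ≤ T ≤ X ^ η`: if `N` is the number of the zeros of the two
L-functions together, counted with multiplicity, then at least `0.3579 N` zeros of one of them are
simple, critical and not zeros of the other; at least `0.0368 N` of them have moreover an ordinate
which no other zero of the two L-functions has; the number of the distinct zeros of the two is at
least `0.6789 N`; and the number of the common zeros, even counted with the smaller of the two
multiplicities, is at most `0.3211 N` (the trivial bound is `0.5 N`).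

The family has one pair of L-functions for every `χ`, so that no averaging over the pairs is
available.

Proof. The trace inequality for zeros (no hypothesis on zeros off the line) is applied to the product
`L(s, χ) L(s, χ χ₄) = L(s, χ ∘ N)` over `ℚ(i)`, an L-function of degree two with the coefficients
`χ(n) (1 + χ₄(n)) Λ(n)`, for which `∑ |1 + χ₄(n)|² Λ(n)² / n` is `(log x)²` up to `O(log x)`.
The mean square of its prime sums over the family is known up to the length `X ^ (2 - ε)` by the
sharp large sieve of the starting files, with the window with the parameter 2 the constant is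
`1 + cot 1 < 1.6421`.
-/

open Complex

namespace Pool.Agent.Results.MP_0f5a55_nt.CommonZerosTwist

/-- The Dirichlet L-function of a character modulo `q` (the value for `q = 0` is never used). -/
noncomputable def Lfun (q : ℕ) (χ : DirichletCharacter ℂ q) : ℂ → ℂ :=
  if h : q = 0 then 0 else
    haveI : NeZero q := ⟨h⟩
    DirichletCharacter.LFunction χ

/-- The odd character modulo 4, with complex values. -/
noncomputable def chi4 : DirichletCharacter ℂ 4 := ZMod.χ₄.ringHomComp (Int.castRingHom ℂ)

/-- The character `χ χ₄` modulo `4 q`. -/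
noncomputable def twist {q : ℕ} (χ : DirichletCharacter ℂ q) : DirichletCharacter ℂ (q * 4) :=
  DirichletCharacter.changeLevel (Nat.dvd_mul_right q 4) χ *
    DirichletCharacter.changeLevel (Nat.dvd_mul_left 4 q) chi4

/-- The zeros of `F` in the open critical strip with ordinate in `(T, 2T]`. -/
def zeros (F : ℂ → ℂ) (T : ℝ) : Set ℂ :=
  {s : ℂ | 0 < s.re ∧ s.re < 1 ∧ T < s.im ∧ s.im ≤ 2 * T ∧ F s = 0}

/-- The number of these zeros, counted with multiplicity. -/
noncomputable def N (F : ℂ → ℂ) (T : ℝ) : ℕ := ∑ᶠ s ∈ zeros F T, analyticOrderNatAt F s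

/-- The zeros of `F` on the critical line which are simple and are not zeros of `G`. -/
def only (F G : ℂ → ℂ) (T : ℝ) : Set ℂ :=
  {s : ℂ | s ∈ zeros F T ∧ s.re = 1 / 2 ∧ analyticOrderNatAt F s = 1 ∧ G s ≠ 0}

/-- Those of them whose ordinate is not the ordinate of any other zero of `F` or `G`. -/
def alone (F G : ℂ → ℂ) (T : ℝ) : Set ℂ :=
  {s : ℂ | s ∈ only F G T ∧ ∀ s' ∈ zeros F T ∪ zeros G T, s'.im = s.im → s' = s}

/-- The number of the common zeros of `F` and `G`, each counted with the smaller of the two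
multiplicities. -/
noncomputable def common (F G : ℂ → ℂ) (T : ℝ) : ℕ :=
  ∑ᶠ s ∈ zeros F T ∩ zeros G T, min (analyticOrderNatAt F s) (analyticOrderNatAt G s)

/-- The primitive Dirichlet characters of conductor `q`. -/
def prim (q : ℕ) : Set (DirichletCharacter ℂ q) := {χ | χ.IsPrimitive}

/-- The sum of `f q χ / q²` over the odd `q` with `X < q ≤ Y` and the primitive characters `χ`
modulo `q`. -/
noncomputable def fam (X Y : ℕ) (f : (q : ℕ) → DirichletCharacter ℂ q → ℕ) : ℝ :=
  ∑ q ∈ (Finset.Ioc X Y).filter Odd, (1 / (q : ℝ) ^ 2) * ∑ᶠ χ ∈ prim q, (f q χ : ℝ)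

lemma fam_eq (X Y : ℕ) (f : (q : ℕ) → DirichletCharacter ℂ q → ℕ) :
    fam X Y f = H385.primFamM 2 X Y (fun q χ => (f q χ : ℝ)) := by
  unfold fam H385.primFamM
  have e : (Finset.Ioc X Y).filter Odd =
      (Finset.Ioc X Y).filter (fun q => Nat.Coprime q 2) := by
    refine Finset.filter_congr fun q _ => ?_
    rw [Nat.coprime_two_right]
  rw [e]
  refine Finset.sum_congr rfl fun q _ => ?_
  congr 1
  rw [← finsum_set_coe_eq_finsum_mem]
  rfl

/-- **Common zeros of `L(s, χ)` and `L(s, χ χ₄)` on average over `χ`.** -/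
theorem result : ∃ K η X₀ : ℝ, 1 ≤ K ∧ 0 < η ∧ 1 ≤ X₀ ∧
    ∀ (X Y : ℕ) (T : ℝ), X₀ ≤ X → K * X ≤ Y → (Y : ℝ) ≤ (X : ℝ) ^ (1 + η) →
      (Real.log X) ^ 2 ≤ T → T ≤ (X : ℝ) ^ η →
      0 < fam X Y (fun q χ => N (Lfun q χ) T + N (Lfun (q * 4) (twist χ)) T) ∧
      (∀ q : ℕ, X < q → Odd q → ∀ χ ∈ prim q, (zeros (Lfun q χ) T).Finite ∧
        (zeros (Lfun (q * 4) (twist χ)) T).Finite) ∧
      0.3579 * fam X Y (fun q χ => N (Lfun q χ) T + N (Lfun (q * 4) (twist χ)) T) ≤
        fam X Y (fun q χ => (only (Lfun q χ) (Lfun (q * 4) (twist χ)) T).ncard +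
          (only (Lfun (q * 4) (twist χ)) (Lfun q χ) T).ncard) ∧
      0.0368 * fam X Y (fun q χ => N (Lfun q χ) T + N (Lfun (q * 4) (twist χ)) T) ≤
        fam X Y (fun q χ => (alone (Lfun q χ) (Lfun (q * 4) (twist χ)) T).ncard +
          (alone (Lfun (q * 4) (twist χ)) (Lfun q χ) T).ncard) ∧
      0.6789 * fam X Y (fun q χ => N (Lfun q χ) T + N (Lfun (q * 4) (twist χ)) T) ≤
        fam X Y (fun q χ => (zeros (Lfun q χ) T ∪ zeros (Lfun (q * 4) (twist χ)) T).ncard) ∧
      fam X Y (fun q χ => common (Lfun q χ) (Lfun (q * 4) (twist χ)) T) ≤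
        0.3211 * fam X Y (fun q χ => N (Lfun q χ) T + N (Lfun (q * 4) (twist χ)) T) := by
  obtain ⟨K, η, X0, hK, hη, hX0, h⟩ := Pool.Agent.R321.RG.common4
  refine ⟨K, η, X0, hK, hη, hX0, ?_⟩
  intro X Y T hX hKX hY hT1 hT2
  obtain ⟨b0, bf, b1, b2, b3, b4⟩ := h X Y T hX hKX hY hT1 hT2
  rw [fam_eq, fam_eq, fam_eq, fam_eq, fam_eq]
  exact ⟨b0, fun q hq ho χ hχ => bf q hq (Nat.coprime_two_right.2 ho) χ hχ, b1, b2, b3, b4⟩

end Pool.Agent.Results.MP_0f5a55_nt.CommonZerosTwist
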