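import Pool.Agent.R399.TM.Avg

/-!
# Multiplicities in `Γ` for almost all twists by Dirichlet characters

Let `ρ_1, ..., ρ_n` be irreducible Artin representations of `ℚ` of degree `m_i ≤ 3` which are
automorphic and cuspidal: all odd ones of degree two (Khare, Wintenberger), those of degree two with
solvable image (Langlands, Tunnell), those induced from characters of real quadratic and totally real
cubic fields (for these everything is proved here), their symmetric squares, ..., for instance irreducible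
characters of one group `Gal(L₀/ℚ)`.  For a primitive Dirichlet character `χ` of conductor `q` prime
to the conductors, the `ρ_i ⊗ χ` are irreducible characters of the Galois group of the compositum `F`
of `L₀` and the cyclic field of `χ`, and a number `γ` occurs in the multiset `Γ_F` at least
`∑_i ord_{s = 1/2 + iγ} L(s, ρ_i ⊗ χ)` times; linear independence of `Γ_F` demands that this sum is at
most `1`.  We know of no better bound for it than the trivial one, `O(log (q (2 + |γ|)))`
(`O(log / log log)` under the Riemann hypothesis).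

We prove, with no hypothesis on zeros, that for almost all of the about `Q²` characters `χ` of
conductor `2 ≤ q ≤ Q` these multiplicities are `O(log log Q + log (2 + |γ|))`, for all heights at the
same time, with an exponentially small exceptional set, and not only for a single value `γ`
but for the total number of zeros in discs around `1/2 + iγ`:

* (1) the number of the `χ` for which for some `|t| ≤ T` the functions `L(s, ρ_i ⊗ χ)` have at least
  `k` zeros in total in the disc `|s - 1/2 - it| ≤ r`, where `r ≤ 1/100` and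
  `600 n r (1 + log Q) ≤ k`, is at most
  `C (2 + T)^10 (1 + log Q)^B Q² exp(-k / (500 n))`;
* (2) for every `a` there is `K` such that for all but `K Q² / (1 + log Q)^a` of the `χ` every disc
  `|s - 1/2 - it| ≤ 1 / (100 (1 + log Q))`, `t` real, contains in total at most
  `K (log (1 + log Q) + log (2 + |t|))` zeros;
* (3) in particular the multiplicity of every real `γ` for all these `χ` is at most
  `K (log (1 + log Q) + log (2 + |γ|))`.

The families are given as in the starting result `CuspidalTwists` (`IsFamily`): an Euler product of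
degree `m` whose twists have the analytic properties of automorphic L-functions, or the induction of
a Hecke character (of finite order for Artin representations) of a totally real field of degree `m`,
where nothing is assumed.

Proof.  `L(s) M(s)`, `M` a mollifier of length `Q^(1/3)`, is in mean square close to a constant
between `1/2` and `1` to the right of `1/2 + O(1/log Q)` (large sieve, functional equation, Gaussian
kernel), and of mean square `Q^(O(a)) (log Q)^B` at distance `a` from the critical line (three lines theorem);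
dividing by the polynomial of the zeros in the disc one finds that `k` zeros are possible only with
frequency `exp(-c k)`.
-/

set_option autoImplicit false

open Complex

namespace Pool.Agent.Results.MP_0f5a55_nt.MultiplicitiesTwists

open Pool.Agent.Results.MP_77948b_nt.CuspidalTwists (IsFamily)

/-- The number of the primitive Dirichlet characters `χ` of conductor `q`, `2 ≤ q ≤ Q`, `q` prime to
`N`, which have the property `S q χ`. -/
noncomputable def count (N Q : ℕ) (S : (q : ℕ) → DirichletCharacter ℂ q → Prop) : ℕ :=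
  ∑ q ∈ (Finset.Icc 2 Q).filter (fun q => Nat.Coprime q N),
    {χ : DirichletCharacter ℂ q | χ.IsPrimitive ∧ S q χ}.ncard

/-- The entire function `F` has at least `k` zeros, counted with multiplicity, in the disc with centre
`w` and radius `r`: it is `(s - z_1) ... (s - z_k) H(s)` with `H` entire and the `z_j` in the disc. -/
def HasZeros (F : ℂ → ℂ) (k : ℕ) (w : ℂ) (r : ℝ) : Prop :=
  ∃ (z : ℕ → ℂ) (H : ℂ → ℂ), Differentiable ℂ H ∧ (∀ j < k, ‖z j - w‖ ≤ r) ∧
    ∀ s, F s = (∏ j ∈ Finset.range k, (s - z j)) * H s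

/-- The functions `F_i` have in total at least `k` zeros in the disc with centre `w` and radius `r`. -/
def TotalZeros {n : ℕ} (F : Fin n → ℂ → ℂ) (k : ℕ) (w : ℂ) (r : ℝ) : Prop :=
  ∃ κ : Fin n → ℕ, k ≤ ∑ i, κ i ∧ ∀ i, HasZeros (F i) (κ i) w r

lemma pt_half (t : ℝ) : Pool.Agent.R399.TW.pt (1 / 2) t = 1 / 2 + t * I := by
  unfold Pool.Agent.R399.TW.pt
  push_cast
  rfl

/-- **Theorem.** -/
theorem result (n N : ℕ) (hn : 1 ≤ n) (m N' : Fin n → ℕ)
    (L : Fin n → (q : ℕ) → DirichletCharacter ℂ q → ℂ → ℂ) (hm : ∀ i, m i ≤ 3)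
    (hN : ∀ i, N' i ∣ N) (hL : ∀ i, IsFamily (m i) (N' i) (L i)) :
    (∃ C B : ℝ, ∀ (Q : ℕ) (T r : ℝ) (k : ℕ), 1 ≤ Q → 0 ≤ T → r ≤ 1 / 100 →
      600 * n * r * (1 + Real.log Q) ≤ k →
      (count N Q (fun q χ => ∃ t : ℝ, |t| ≤ T ∧
        TotalZeros (fun i => L i q χ) k (1 / 2 + t * I) r) : ℝ) ≤
        C * (2 + T) ^ 10 * (1 + Real.log Q) ^ B *
          ((Q : ℝ) ^ 2 * Real.exp (-(k : ℝ) / (500 * n)))) ∧
    (∀ a : ℝ, ∃ K : ℝ, 0 < K ∧ ∀ Q : ℕ, 1 ≤ Q →
      (count N Q (fun q χ => ∃ (t : ℝ) (k : ℕ),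
        K * (Real.log (1 + Real.log Q) + Real.log (2 + |t|)) < k ∧
        TotalZeros (fun i => L i q χ) k (1 / 2 + t * I) (1 / (100 * (1 + Real.log Q)))) : ℝ) ≤
        K * (Q : ℝ) ^ 2 / (1 + Real.log Q) ^ a) ∧
    (∀ (i : Fin n) (q : ℕ) (χ : DirichletCharacter ℂ q), 2 ≤ q → Nat.Coprime q N →
      χ.IsPrimitive → Differentiable ℂ (L i q χ) ∧ ∀ s : ℂ, analyticOrderAt (L i q χ) s ≠ ⊤) ∧
    (∀ a : ℝ, ∃ K : ℝ, 0 < K ∧ ∀ Q : ℕ, 1 ≤ Q →
      (count N Q (fun q χ => ∃ γ : ℝ,
        K * (Real.log (1 + Real.log Q) + Real.log (2 + |γ|)) <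
          ((∑ i, analyticOrderNatAt (L i q χ) (1 / 2 + γ * I) : ℕ) : ℝ)) : ℝ) ≤
        K * (Q : ℝ) ^ 2 / (1 + Real.log Q) ^ a) := by
  have h := fun i => Pool.Agent.R399.TM.fo_of_family (hL i)
  have hfin : ∀ (i : Fin n) (q : ℕ) (χ : DirichletCharacter ℂ q), 2 ≤ q → Nat.Coprime q N →
      χ.IsPrimitive → Differentiable ℂ (L i q χ) ∧ ∀ s : ℂ, analyticOrderAt (L i q χ) s ≠ ⊤ := by
    intro i q χ hq hqN hχ
    have hqN' := Nat.Coprime.coprime_dvd_right (hN i) hqN
    refine ⟨?_, (h i).fin hq hqN' hχ⟩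
    obtain ⟨c, R₀, V, C, -, -, -, -, hmem⟩ := h i
    exact (hmem q χ hq hqN' hχ).1
  refine ⟨?_, fun a => ?_, hfin, fun a => ?_⟩
  · obtain ⟨C, B, -, -, h1⟩ := Pool.Agent.R399.TM.multi_tail hn hm hN h
    refine ⟨C, B, fun Q T r k hQ hT hr hk => ?_⟩
    have h2 := h1 Q T r k hQ hT hr hk
    simp only [pt_half] at h2
    exact h2
  · obtain ⟨K, hK, h1⟩ := Pool.Agent.R399.TM.multi_almost hn hm hN h a
    refine ⟨K, hK, fun Q hQ => ?_⟩
    refine le_trans ?_ (h1 Q hQ)
    have h2 := Pool.Agent.R399.TM.count_mono (N := N) (N' := N) (Q := Q)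
      (S := fun q χ => ∃ (t : ℝ) (k : ℕ),
        K * (Real.log (1 + Real.log Q) + Real.log (2 + |t|)) < k ∧
        TotalZeros (fun i => L i q χ) k (1 / 2 + t * I) (1 / (100 * (1 + Real.log Q))))
      (S' := fun q χ => ∃ (t : ℝ) (κ : Fin n → ℕ),
        K * (Real.log (1 + Real.log Q) + Real.log (2 + |t|)) < ((∑ i, κ i : ℕ) : ℝ) ∧
        ∀ i, Pool.Agent.R399.TM.Dv (L i q χ) (κ i) (Pool.Agent.R399.TW.pt (1 / 2) t)
          (1 / (100 * (1 + Real.log Q)))) (dvd_refl N) ?_
    · exact h2
    · rintro q χ - - - ⟨t, k, hk, κ, hκ, hz⟩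
      refine ⟨t, κ, hk.trans_le (by exact_mod_cast hκ), fun i => ?_⟩
      rw [pt_half]
      exact hz i
  · obtain ⟨K, hK, h1⟩ := Pool.Agent.R399.TM.multi_almost hn hm hN h a
    refine ⟨K, hK, fun Q hQ => ?_⟩
    refine le_trans ?_ (h1 Q hQ)
    have hq1 : (1 : ℝ) ≤ Q := by exact_mod_cast hQ
    have hlq : 0 ≤ Real.log Q := Real.log_nonneg hq1
    have h2 := Pool.Agent.R399.TM.count_mono (N := N) (N' := N) (Q := Q)
      (S := fun q χ => ∃ γ : ℝ,
        K * (Real.log (1 + Real.log Q) + Real.log (2 + |γ|)) <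
          ((∑ i, analyticOrderNatAt (L i q χ) (1 / 2 + γ * I) : ℕ) : ℝ))
      (S' := fun q χ => ∃ (t : ℝ) (κ : Fin n → ℕ),
        K * (Real.log (1 + Real.log Q) + Real.log (2 + |t|)) < ((∑ i, κ i : ℕ) : ℝ) ∧
        ∀ i, Pool.Agent.R399.TM.Dv (L i q χ) (κ i) (Pool.Agent.R399.TW.pt (1 / 2) t)
          (1 / (100 * (1 + Real.log Q)))) (dvd_refl N) ?_
    · exact h2
    · rintro q χ hq hqN hχ ⟨γ, hγ⟩
      refine ⟨γ, fun i => analyticOrderNatAt (L i q χ) (1 / 2 + γ * I), hγ, fun i => ?_⟩
      rw [pt_half]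
      obtain ⟨h3, h4⟩ := hfin i q χ hq hqN hχ
      refine Pool.Agent.R399.TM.Dv.of_order h3 (by positivity) ?_
      rw [Nat.cast_analyticOrderNatAt (h4 _)]

end Pool.Agent.Results.MP_0f5a55_nt.MultiplicitiesTwists
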