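import Pool.Agent.R409.RH.Lim

/-!
# Repetitions among the critical zeros of Artin L-functions, seen by Frobenius classes

Let `F/ℚ` be a finite Galois extension with group `G`. For a conjugacy class `C` of `G`, a complex
number `s₀`, `γ > π/2` and `θ > max(0, 1 - Re s₀)` let

`N_C(T) = ∑ κ_γ(k log p / T) p^{-k s₀} / k`, `κ_γ(u) = e^{iγu} / Γ(1 + u)`,

be the finite sum over the prime powers `p^k ≤ exp (exp (θ T))` with `Frob_p^k ∈ C` (ramified ones with the
multiplicity `#(Frob_p^k I_p ∩ C) / #I_p`). We prove that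

`N_C(T) = c_C - m_C (log T - Λ_γ) + O(1/T)`, `m_C = #C / #G ∑_χ conj χ(C) ord_{s₀} L(s, χ)`,

without any hypothesis on the zeros, that `ord_{s₀} L(s, χ) = ∑_C χ(C) m_C`,
`L^*(s₀, χ) = exp (∑_C χ(C) c_C)`, and that

`lim #G ∑_C |N_C(T)|² / #C / log² T = ∑_χ (ord_{s₀} L(s, χ))²`.

So the multiplicities of all the Artin L-functions of `F/ℚ` at a point of the critical line are seen by one
quadratic form in the counts of the primes with given Frobenius class, and the assertion that no value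
occurs twice in `Γ_F` becomes an assertion on these counts.
-/

set_option autoImplicit false

namespace Pool.Agent.Results.MP_0f5a55_nt.RepetitionsFromClasses

open NumberField Filter Topology
open Pool.Agent.R409.RH

/-- The order of a meromorphic function at a point (`0` if it vanishes identically near the point). -/
noncomputable def ordAt (f : ℂ → ℂ) (s : ℂ) : ℤ := (meromorphicOrderAt f s).untop₀

/-- The number of times `t` occurs in the multiset `Γ_F` of the ordinates of the zeros of the `L_i` on the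
critical line. -/
noncomputable def occ {ι : Type} [Fintype ι] (L : ι → ℂ → ℂ) (t : ℝ) : ℕ :=
  ∑ i, (ordAt (L i) (1 / 2 + t * Complex.I)).toNat

/-- The quadratic form `#G ∑_C |N_C(T)|² / #C` of the class sums. -/
noncomputable def quad {G : Type} [Group G] (frob : Nat.Primes → G) (I : Nat.Primes → Subgroup G)
    (s₀ : ℂ) (γ θ T : ℝ) : ℝ :=
  Nat.card G * ∑ᶠ C : ConjClasses G, ‖classSum frob I C s₀ γ θ T‖ ^ 2 / (Nat.card C.carrier : ℝ)

theorem sum_sq_le_one {ι : Type} [Fintype ι] (r : ι → ℤ) (h : ∑ i, r i ^ 2 ≤ 1) :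
    ∑ i, (r i).toNat ≤ 1 := by
  have h1 : ∀ i, ((r i).toNat : ℤ) ≤ r i ^ 2 := by
    intro i
    rcases le_total (r i) 0 with hi | hi
    · rw [Int.toNat_of_nonpos hi]
      exact sq_nonneg _
    · rw [Int.toNat_of_nonneg hi]
      nlinarith [Int.le_self_sq (r i)]
  have h2 : ((∑ i, (r i).toNat : ℕ) : ℤ) ≤ 1 := by
    push_cast
    exact (Finset.sum_le_sum fun i _ => h1 i).trans h
  exact_mod_cast h2

theorem sum_sq_of_le {ι : Type} [Fintype ι] (r : ι → ℤ) (h0 : ∀ i, 0 ≤ r i)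
    (h : ∑ i, (r i).toNat ≤ 1) : ∑ i, r i ^ 2 ≤ 1 := by
  have h1 : ∀ i, (r i).toNat ≤ 1 := fun i =>
    (Finset.single_le_sum (f := fun i => (r i).toNat) (fun _ _ => Nat.zero_le _)
      (Finset.mem_univ i)).trans h
  have h2 : ∀ i, r i ^ 2 = ((r i).toNat : ℤ) := by
    intro i
    rw [Int.toNat_of_nonneg (h0 i)]
    have h3 := h1 i
    have h4 : r i ≤ 1 := by
      have := Int.toNat_of_nonneg (h0 i)
      omega
    have h5 := h0 i
    interval_cases (r i) <;> rfl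
  simp only [h2]
  exact_mod_cast h

/-- **Class sums and repetitions in `Γ_F`.** Let `F/ℚ` be a finite Galois extension with group `G`,
`frob p` a Frobenius element and `I p` the inertia group at a prime ideal `P p` above `p`, `ρ_i` the
irreducible representations of `G`, and `L_i` the meromorphic continuation of `L(s, ρ_i, F/ℚ)`.

1. For every complex number `s₀` there are constants `c_C`, `m_C` with
`N_C(T) = c_C - m_C (log T - Λ_γ) + O(1/T)` for all `C`, `γ > π/2`, `θ > max(0, 1 - Re s₀)`, and with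
`ord_{s₀} L(s, τ) = ∑_C χ(C) m_C`, `L^*(s₀, τ) = exp (∑_C χ(C) c_C)` for every representation `τ` of `G`
(`χ` its character), `m_C = #C / #G ∑_i conj χ_i(C) ord_{s₀} L_i`.

2. For every real `t` the quotient `#G ∑_C |N_C(T)|² / #C / log² T` at `s₀ = 1/2 + it` tends to
`∑_i (ord_{s₀} L_i)²`.

3. If for every `t > 0` there are arbitrarily large `T` with `#G ∑_C |N_C(T)|² / #C ≤ (3/2) log² T` at
`s₀ = 1/2 + it`, then no value occurs twice in `Γ_F`.

4. If no `L_i` has a pole at a point `1/2 + it`, `t > 0`, the converse of 3 holds also. -/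
theorem result (F : Type) [Field F] [NumberField F] [IsGalois ℚ F]
    (P : Nat.Primes → Ideal (𝓞 F)) (frob : Nat.Primes → (F ≃ₐ[ℚ] F)) (hfrob : IsFrobenius F P frob)
    (ι : Type) [Fintype ι] (d : ι → ℕ) (ρ : ∀ i, (F ≃ₐ[ℚ] F) →* Matrix (Fin (d i)) (Fin (d i)) ℂ)
    (hirr : AreIrreducible ρ) (L : ι → ℂ → ℂ)
    (hL : ∀ i, IsContinuation frob (inertiaAt F P) (ρ i) (L i)) :
    (∀ s₀ : ℂ, ∃ c m : ConjClasses (F ≃ₐ[ℚ] F) → ℂ,
      (∀ γ θ : ℝ, Real.pi / 2 < γ → 1 - s₀.re < θ → 0 < θ → ∀ C, ∃ B T₀ : ℝ, ∀ T : ℝ, T₀ ≤ T →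
        ‖classSum frob (inertiaAt F P) C s₀ γ θ T - (c C - m C * (Real.log T - lam γ))‖ ≤ B / T) ∧
      (∀ (k : ℕ) (τ : (F ≃ₐ[ℚ] F) →* Matrix (Fin k) (Fin k) ℂ) (f : ℂ → ℂ),
        IsContinuation frob (inertiaAt F P) τ f →
        (∃ r : ℤ, meromorphicOrderAt f s₀ = r ∧ (r : ℂ) = ∑ᶠ C, chi τ C * m C) ∧
        meromorphicTrailingCoeffAt f s₀ = Complex.exp (∑ᶠ C, chi τ C * c C)) ∧
      ∀ C, m C = (Nat.card C.carrier : ℂ) / Nat.card (F ≃ₐ[ℚ] F) *
        ∑ i, (starRingEnd ℂ) (chi (ρ i) C) * ordAt (L i) s₀) ∧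
    ∀ γ θ : ℝ, Real.pi / 2 < γ → 1 / 2 < θ →
      (∀ t : ℝ, Tendsto (fun T : ℝ =>
        quad frob (inertiaAt F P) (1 / 2 + t * Complex.I) γ θ T / Real.log T ^ 2) atTop
        (𝓝 (∑ i, (ordAt (L i) (1 / 2 + t * Complex.I) : ℝ) ^ 2))) ∧
      ((∀ t : ℝ, 0 < t → ∀ T₀ : ℝ, ∃ T : ℝ, T₀ ≤ T ∧
        quad frob (inertiaAt F P) (1 / 2 + t * Complex.I) γ θ T ≤ 3 / 2 * Real.log T ^ 2) →
        ∀ t : ℝ, 0 < t → occ L t ≤ 1) ∧
      ((∀ (i : ι) (t : ℝ), 0 < t → 0 ≤ ordAt (L i) (1 / 2 + t * Complex.I)) →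
        (∀ t : ℝ, 0 < t → occ L t ≤ 1) →
        ∀ t : ℝ, 0 < t → ∀ T₀ : ℝ, ∃ T : ℝ, T₀ ≤ T ∧
          quad frob (inertiaAt F P) (1 / 2 + t * Complex.I) γ θ T ≤ 3 / 2 * Real.log T ^ 2) := by
  classical
  have : Fintype (ConjClasses (F ≃ₐ[ℚ] F)) := Fintype.ofFinite _
  have hn := frob_normal hfrob
  refine ⟨fun s₀ => ?_, fun γ θ hγ hθ => ?_⟩
  · obtain ⟨c, m, h1, h2, r, hr, hm⟩ := class_law hn hirr hL s₀
    refine ⟨c, m, fun γ θ hγ hθ hθ0 C => ?_, fun k τ f hf => ?_, fun C => ?_⟩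
    · obtain ⟨B, T₀, -, -, hT⟩ := h1 γ θ hγ hθ hθ0 C
      exact ⟨B, T₀, hT⟩
    · simp only [finsum_eq_sum_of_fintype]
      exact h2 k τ f hf
    · rw [hm C]
      congr 1
      refine Finset.sum_congr rfl fun i _ => ?_
      unfold ordAt
      rw [hr i]
      rfl
  have hre : ∀ t : ℝ, ((1 : ℂ) / 2 + t * Complex.I).re = 1 / 2 := by
    intro t
    simp
  have hlim : ∀ t : ℝ, Tendsto (fun T : ℝ =>
      quad frob (inertiaAt F P) (1 / 2 + t * Complex.I) γ θ T / Real.log T ^ 2) atTop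
      (𝓝 (∑ i, (ordAt (L i) (1 / 2 + t * Complex.I) : ℝ) ^ 2)) := by
    intro t
    obtain ⟨m, h1, -, -, h4⟩ := class_data hn hirr hL (1 / 2 + t * Complex.I)
    have h5 := tend_quad (h1 γ θ hγ (by rw [hre]; linarith) (by linarith))
    rw [← h4] at h5
    unfold quad ordAt
    simp only [finsum_eq_sum_of_fintype]
    exact h5
  have hlimZ : ∀ t : ℝ, Tendsto (fun T : ℝ =>
      quad frob (inertiaAt F P) (1 / 2 + t * Complex.I) γ θ T / Real.log T ^ 2) atTop
      (𝓝 (((∑ i, ordAt (L i) (1 / 2 + t * Complex.I) ^ 2 : ℤ) : ℝ))) := by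
    intro t
    push_cast
    exact hlim t
  refine ⟨hlim, fun h t ht => ?_, fun hp h t ht => ?_⟩
  · exact sum_sq_le_one _ ((thr_iff (hlimZ t) (b := 1) (by norm_num)).1 (h t ht))
  · exact (thr_iff (hlimZ t) (b := 1) (by norm_num)).2
      (sum_sq_of_le _ (fun i => hp i t ht) (h t ht))

end Pool.Agent.Results.MP_0f5a55_nt.RepetitionsFromClasses
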